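import Pool.Agent.Helper61.P3.St1

set_option autoImplicit false

open MeasureTheory Set Filter Topology
open scoped ENNReal RealInnerProductSpace

namespace Pool.Agent.Helper62.P3

open Pool.Agent.Helper61.P3 Pool.Agent.Helper20.RG Pool.Agent.Helper20.EQ
open Pool.Agent.Helper68.LM (Pl BB Bd Av HL ft fm DQ)
open Pool.Agent.Helper68.EP (elt GapP)

private theorem iof {f : ℝ → ℝ} {M : ℝ} (hf : Measurable f) (hM : ∀ t, |f t| ≤ M) {s : Set ℝ}
    (hs : volume s ≠ ⊤) : IntegrableOn f s :=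
  Measure.integrableOn_of_bounded hs hf.aestronglyMeasurable (M := M) (ae_of_all _ hM)

private theorem vIco (x y : ℝ) : volume (Ico x y) ≠ ⊤ := by
  rw [Real.volume_Ico]; exact ENNReal.ofReal_ne_top

private theorem lft_node (κ : ℤ → ℝ) (a n : ℤ) :
    lft κ a (κ a + (n : ℝ) * (2 : ℝ) ^ a) = κ a + (n : ℝ) * (2 : ℝ) ^ a := by
  unfold lft
  have h : (0 : ℝ) < 2 ^ a := by positivity
  have h2 : (κ a + (n : ℝ) * (2 : ℝ) ^ a - κ a) / (2 : ℝ) ^ a = (n : ℝ) := by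
    rw [add_sub_cancel_left, mul_div_assoc, div_self h.ne', mul_one]
  rw [h2, Int.floor_intCast]

private theorem Ia_node (κ : ℤ → ℝ) (a n : ℤ) (x : ℝ) (hx : x = κ a + (n : ℝ) * (2 : ℝ) ^ a) :
    Ia κ a x = Ico x (x + (2 : ℝ) ^ a) := by
  unfold Ia
  rw [hx, lft_node]

private theorem lift_eq {κ : ℤ → ℝ} (hκ : Gr κ) {u v : ℝ → ℝ} {Mu Mv : ℝ} (hu : Measurable u)
    (hMu : ∀ t, |u t| ≤ Mu) (hv : Measurable v) (hMv : ∀ t, |v t| ≤ Mv) (a : ℤ)
    (h : ∀ t, ∫ r in Ia κ a t, u r = ∫ r in Ia κ a t, v r) (b : ℤ) (hab : a ≤ b) :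
    ∀ t, ∫ r in Ia κ b t, u r = ∫ r in Ia κ b t, v r := by
  induction b, hab using Int.leInduction with
  | base => exact h
  | succ b hab ih =>
    intro t
    obtain ⟨n, hn⟩ := hκ b
    obtain ⟨m, hm⟩ : ∃ m : ℤ, lft κ (b + 1) t = κ (b + 1) + (m : ℝ) * (2 : ℝ) ^ (b + 1) :=
      ⟨_, rfl⟩
    have hp : (0 : ℝ) < 2 ^ b := by positivity
    have h2 : (2 : ℝ) ^ (b + 1) = 2 ^ b + 2 ^ b := by
      rw [zpow_add_one₀ two_ne_zero]; ring
    obtain ⟨x, hx⟩ : ∃ x, x = lft κ (b + 1) t := ⟨_, rfl⟩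
    have e1 : x = κ b + ((n + 2 * m : ℤ) : ℝ) * (2 : ℝ) ^ b := by
      rw [hx, hm, hn, h2]; push_cast; ring
    have e2 : x + 2 ^ b = κ b + ((n + 2 * m + 1 : ℤ) : ℝ) * (2 : ℝ) ^ b := by
      rw [e1]; push_cast; ring
    have e3 : Ia κ (b + 1) t = Ia κ b x ∪ Ia κ b (x + 2 ^ b) := by
      rw [Ia_node κ b _ x e1, Ia_node κ b _ (x + 2 ^ b) e2,
        Ico_union_Ico_eq_Ico (by linarith) (by linarith)]
      unfold Ia
      rw [← hx, h2, add_assoc]
    have e4 : Disjoint (Ia κ b x) (Ia κ b (x + 2 ^ b)) := by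
      rw [Ia_node κ b _ x e1, Ia_node κ b _ (x + 2 ^ b) e2]
      exact Ico_disjoint_Ico_same
    rw [e3, setIntegral_union e4 measurableSet_Ico (iof hu hMu (vIco _ _))
      (iof hu hMu (vIco _ _)), setIntegral_union e4 measurableSet_Ico (iof hv hMv (vIco _ _))
      (iof hv hMv (vIco _ _)), ih, ih]

section

variable {κ : ℤ → ℝ} {β : ℝ → ℝ} {M : ℝ}

private theorem ed_meas (hGR : StGR) (hκ : Gr κ) (a : ℤ) (hβ : Measurable β)
    (hM : ∀ t, |β t| ≤ M) : Measurable (Ed κ a β) := by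
  have hint : ∀ x y : ℝ, IntervalIntegrable β volume x y := by
    intro x y
    rw [intervalIntegrable_iff]
    exact iof hβ hM (by
      unfold uIoc
      rw [Real.volume_Ioc]; exact ENNReal.ofReal_ne_top)
  have hc : Continuous fun x => ∫ r in (0 : ℝ)..x, β r :=
    intervalIntegral.continuous_primitive hint 0
  have hl : Measurable (lft κ a) := (hGR.1 κ hκ a 0).2.2.2.1
  have e : Ed κ a β = fun t => (2 : ℝ) ^ (-a) *
      ((∫ r in (0 : ℝ)..(lft κ a t + (2 : ℝ) ^ a), β r) - ∫ r in (0 : ℝ)..(lft κ a t), β r) := by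
    funext t
    have hp : (0 : ℝ) < 2 ^ a := by positivity
    unfold Ed Ia
    rw [intervalIntegral.integral_interval_sub_left (hint _ _) (hint _ _),
      intervalIntegral.integral_of_le (by linarith), integral_Ico_eq_integral_Ioo,
      integral_Ioc_eq_integral_Ioo]
  rw [e]
  exact ((hc.measurable.comp (hl.add_const _)).sub (hc.measurable.comp hl)).const_mul _

private theorem ed_bd (hGR : StGR) (hκ : Gr κ) (a : ℤ) (hM : ∀ t, |β t| ≤ M) (t : ℝ) :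
    |Ed κ a β t| ≤ M := by
  have hp : (0 : ℝ) < 2 ^ a := by positivity
  have hv := (hGR.1 κ hκ a t).2.2.1
  have h1 : ‖∫ r in Ia κ a t, β r‖ ≤ M * volume.real (Ia κ a t) :=
    norm_setIntegral_le_of_norm_le_const (by rw [hv]; exact ENNReal.ofReal_lt_top)
      (fun x _ => hM x)
  rw [Measure.real, hv, ENNReal.toReal_ofReal hp.le, Real.norm_eq_abs] at h1
  unfold Ed
  rw [abs_mul, abs_of_pos (by positivity : (0 : ℝ) < 2 ^ (-a)), zpow_neg]
  calc ((2 : ℝ) ^ a)⁻¹ * |∫ r in Ia κ a t, β r| ≤ ((2 : ℝ) ^ a)⁻¹ * (M * 2 ^ a) := by gcongr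
    _ = M := by field_simp

private theorem ed_const (hGR : StGR) (hκ : Gr κ) (a : ℤ) (t r : ℝ) (hr : r ∈ Ia κ a t) :
    Ed κ a β r = Ed κ a β t := by
  unfold Ed
  rw [((hGR.1 κ hκ a t).2.2.2.2.1 r hr).2]

private theorem int_eq (a : ℤ) (t : ℝ) : ∫ r in Ia κ a t, β r = (2 : ℝ) ^ a * Ed κ a β t := by
  have hp : (0 : ℝ) < 2 ^ a := by positivity
  unfold Ed
  rw [zpow_neg, ← mul_assoc, mul_inv_cancel₀ hp.ne', one_mul]

/-- self adjointness on an interval of the same scale -/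
private theorem sa_base (hGR : StGR) (hκ : Gr κ) (a : ℤ) (ψ : ℝ → ℝ) (t : ℝ) :
    ∫ r in Ia κ a t, Ed κ a β r * ψ r = ∫ r in Ia κ a t, β r * Ed κ a ψ r := by
  have hm := (hGR.1 κ hκ a t).2.1
  have h1 : ∫ r in Ia κ a t, Ed κ a β r * ψ r = ∫ r in Ia κ a t, Ed κ a β t * ψ r :=
    setIntegral_congr_fun hm fun r hr => by
      show Ed κ a β r * ψ r = Ed κ a β t * ψ r
      rw [ed_const hGR hκ a t r hr]
  have h2 : ∫ r in Ia κ a t, β r * Ed κ a ψ r = ∫ r in Ia κ a t, β r * Ed κ a ψ t :=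
    setIntegral_congr_fun hm fun r hr => by
      show β r * Ed κ a ψ r = β r * Ed κ a ψ t
      rw [ed_const hGR hκ a t r hr]
  rw [h1, h2, integral_const_mul, integral_mul_const, int_eq a t, int_eq a t]
  ring

private theorem sa_loc (hGR : StGR) (hκ : Gr κ) (a : ℤ) (hβ : Measurable β)
    (hM : ∀ t, |β t| ≤ M) {ψ : ℝ → ℝ} {M' : ℝ} (hψ : Measurable ψ) (hM' : ∀ t, |ψ t| ≤ M')
    (b : ℤ) (hab : a ≤ b) (t : ℝ) :
    ∫ r in Ia κ b t, Ed κ a β r * ψ r = ∫ r in Ia κ b t, β r * Ed κ a ψ r := by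
  have hM0 : 0 ≤ M := (abs_nonneg _).trans (hM 0)
  refine lift_eq hκ (Mu := M * M') (Mv := M * M') ((ed_meas hGR hκ a hβ hM).mul hψ)
    (fun t => ?_) (hβ.mul (ed_meas hGR hκ a hψ hM')) (fun t => ?_) a
    (sa_base hGR hκ a ψ) b hab t
  · rw [Pi.mul_apply, abs_mul]
    exact mul_le_mul (ed_bd hGR hκ a hM t) (hM' t) (abs_nonneg _) hM0
  · rw [Pi.mul_apply, abs_mul]
    exact mul_le_mul (hM t) (ed_bd hGR hκ a hM' t) (abs_nonneg _) hM0

/-- the cell of index `n` -/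
private def Jn (κ : ℤ → ℝ) (a n : ℤ) : Set ℝ :=
  Ico (κ a + n • (2 : ℝ) ^ a) (κ a + (n + 1) • (2 : ℝ) ^ a)

private theorem Jn_eq (κ : ℤ → ℝ) (a n : ℤ) :
    Jn κ a n = Ia κ a (κ a + (n : ℝ) * (2 : ℝ) ^ a) := by
  rw [Ia_node κ a n _ rfl]
  unfold Jn
  rw [zsmul_eq_mul, zsmul_eq_mul]
  congr 1
  push_cast
  ring

private theorem Jn_univ (κ : ℤ → ℝ) (a : ℤ) : ⋃ n : ℤ, Jn κ a n = univ :=
  iUnion_Ico_add_zsmul (by positivity : (0 : ℝ) < 2 ^ a) (κ a)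

private theorem Jn_disj (κ : ℤ → ℝ) (a : ℤ) : Pairwise (Function.onFun Disjoint (Jn κ a)) :=
  pairwise_disjoint_Ico_add_zsmul (κ a) ((2 : ℝ) ^ a)

private theorem Jn_meas (κ : ℤ → ℝ) (a n : ℤ) : MeasurableSet (Jn κ a n) := measurableSet_Ico

private theorem ed_l1 (hGR : StGR) (hκ : Gr κ) (a : ℤ) :
    ∫⁻ t, ENNReal.ofReal |Ed κ a β t| ≤ ∫⁻ t, ENNReal.ofReal |β t| := by
  have hp : (0 : ℝ) < 2 ^ a := by positivity
  have e1 : ∀ f : ℝ → ℝ≥0∞, ∫⁻ t, f t = ∑' n : ℤ, ∫⁻ t in Jn κ a n, f t := by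
    intro f
    rw [← lintegral_iUnion (Jn_meas κ a) (Jn_disj κ a), Jn_univ, Measure.restrict_univ]
  rw [e1, e1]
  refine ENNReal.tsum_le_tsum fun n => ?_
  rw [Jn_eq]
  obtain ⟨x, hx⟩ : ∃ x, x = κ a + (n : ℝ) * (2 : ℝ) ^ a := ⟨_, rfl⟩
  rw [← hx]
  have hm := (hGR.1 κ hκ a x).2.1
  have hv := (hGR.1 κ hκ a x).2.2.1
  have h1 : ∫⁻ t in Ia κ a x, ENNReal.ofReal |Ed κ a β t| =
      ∫⁻ _ in Ia κ a x, ENNReal.ofReal |Ed κ a β x| :=
    setLIntegral_congr_fun hm fun r hr => by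
      show ENNReal.ofReal |Ed κ a β r| = ENNReal.ofReal |Ed κ a β x|
      rw [ed_const hGR hκ a x r hr]
  rw [h1, setLIntegral_const, hv, ← ENNReal.ofReal_mul (abs_nonneg _)]
  have h2 : |Ed κ a β x| * 2 ^ a = |∫ r in Ia κ a x, β r| := by
    rw [int_eq a x, abs_mul, abs_of_pos hp, mul_comm]
  rw [h2, ← Real.enorm_eq_ofReal_abs]
  refine (enorm_integral_le_lintegral_enorm _).trans (le_of_eq ?_)
  refine lintegral_congr fun r => ?_
  rw [Real.enorm_eq_ofReal_abs]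

end

theorem hGA (hGR : Pool.Agent.Helper61.P3.StGR) : Pool.Agent.Helper61.P3.StGA := by
  intro κ hκ β M a hβ hM
  have hv : ∀ t, volume (Ia κ a t) ≠ ⊤ := fun t => by
    rw [(hGR.1 κ hκ a t).2.2.1]; exact ENNReal.ofReal_ne_top
  have hp : (0 : ℝ) < 2 ^ (-a) := by positivity
  refine ⟨ed_meas hGR hκ a hβ hM, ed_bd hGR hκ a hM, fun t r hr => ed_const hGR hκ a t r hr,
    ?_, ?_, ?_, ?_, ?_, ?_, ed_l1 hGR hκ a⟩
  · intro h0 t
    exact mul_nonneg hp.le (setIntegral_nonneg (hGR.1 κ hκ a t).2.1 fun r _ => h0 r)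
  · intro β' M' hβ' hM' hle t
    exact mul_le_mul_of_nonneg_left (setIntegral_mono (iof hβ hM (hv t)) (iof hβ' hM' (hv t)) hle)
      hp.le
  · intro β' M' x y hβ' hM' t
    unfold Ed
    have h1 : IntegrableOn (fun r => x * β r) (Ia κ a t) := (iof hβ hM (hv t)).const_mul x
    have h2 : IntegrableOn (fun r => y * β' r) (Ia κ a t) := (iof hβ' hM' (hv t)).const_mul y
    rw [integral_add h1 h2, integral_const_mul, integral_const_mul]
    ring
  · intro b hab t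
    have h1 : ∀ t, Ed κ a (fun _ => (1 : ℝ)) t = 1 := by
      intro t
      have h2 : (0 : ℝ) < 2 ^ a := by positivity
      unfold Ed
      rw [setIntegral_const, Measure.real, (hGR.1 κ hκ a t).2.2.1, ENNReal.toReal_ofReal h2.le,
        smul_eq_mul, mul_one, zpow_neg, inv_mul_cancel₀ h2.ne']
    have h3 := sa_loc hGR hκ a hβ hM (ψ := fun _ => (1 : ℝ)) (M' := 1) measurable_const
      (fun _ => by norm_num) b hab t
    simp only [h1, mul_one] at h3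
    unfold Ed at h3 ⊢
    rw [h3]
  · intro ψ M' hψ hM' b hab t
    have h3 := sa_loc hGR hκ a hβ hM hψ hM' b hab t
    unfold Ed at h3 ⊢
    rw [h3]
  · intro hi ψ M' hψ hM'
    have hi2 : Integrable (Ed κ a β) := by
      refine ⟨(ed_meas hGR hκ a hβ hM).aestronglyMeasurable, ?_⟩
      have h1 := hi.2
      unfold HasFiniteIntegral at h1 ⊢
      simp only [Real.enorm_eq_ofReal_abs] at h1 ⊢
      exact (ed_l1 hGR hκ a).trans_lt h1
    refine ⟨hi2, ?_⟩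
    have h2 : Integrable fun t => Ed κ a β t * ψ t :=
      hi2.mul_bdd (c := M') hψ.aestronglyMeasurable (ae_of_all _ hM')
    have h3 : Integrable fun t => β t * Ed κ a ψ t :=
      hi.mul_bdd (c := M') (ed_meas hGR hκ a hψ hM').aestronglyMeasurable
        (ae_of_all _ (ed_bd hGR hκ a hM'))
    have e1 : ∀ f : ℝ → ℝ, Integrable f → ∫ t, f t = ∑' n : ℤ, ∫ t in Jn κ a n, f t := by
      intro f hf
      rw [← integral_iUnion (Jn_meas κ a) (Jn_disj κ a) (by rw [Jn_univ]; exact hf.integrableOn),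
        Jn_univ, Measure.restrict_univ]
    rw [e1 _ h2, e1 _ h3]
    refine tsum_congr fun n => ?_
    rw [Jn_eq]
    exact sa_base hGR hκ a ψ _

end Pool.Agent.Helper62.P3
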